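import Pool.Agent.H38.AG.Targets

/-!
# Board `allg_modules`, module GGG: abc for 100 percent of all triples
-/

set_option autoImplicit false

open Pool.Agent.H38.RB Pool.Agent.H38.PS Pool.Agent.H82.RD Pool.Agent.H38.AB Pool.Agent.H38.AG

namespace Pool.Agent.H59.AG

theorem rd_mono {X ρ ρ' : ℝ} (hX : 1 ≤ X) (h : ρ ≤ ρ') : Rd X ρ ⊆ Rd X ρ' := by
  intro x hx
  obtain ⟨h1, h2, h3, h4, h5⟩ := hx
  refine ⟨h1, h2, fun i => ?_, ?_, ?_⟩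
  · exact (Real.rpow_le_rpow_of_exponent_le hX (by linarith)).trans (h3 i)
  · exact h4.trans (Real.rpow_le_rpow_of_exponent_le hX h)
  · exact h5.trans (mul_le_mul_of_nonneg_right h (Real.log_nonneg hX))

theorem exp_mono {X C c c' y : ℝ} (hX : 1 ≤ X) (hC : 0 ≤ C) (h : c' ≤ c)
    (hy : y ≤ C * X ^ (2 / 3 - c)) : y ≤ C * X ^ (2 / 3 - c') :=
  hy.trans (mul_le_mul_of_nonneg_left
    (Real.rpow_le_rpow_of_exponent_le hX (by linarith)) hC)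

theorem pf_GGG (hRED : T_RED) (hRGS : T_RGS) (hRGB : T_RGB) (hRG1 : T_RG1) (hTFI : T_TFI) :
    T_GGG := by
  obtain ⟨K₀, ρ₁, c₁, C₁, hK₀, hρ₁, hc₁, hC₁, h₁⟩ := hRGB
  obtain ⟨A₀, ρ₂, c₂, C₂, hA₀, hρ₂, hc₂, hC₂, h₂⟩ := hRGS K₀ hK₀
  obtain ⟨c₃, C₃, hc₃, hC₃, h₃⟩ := hRED (min ρ₁ ρ₂) (lt_min hρ₁ hρ₂)
  obtain ⟨C₄, hC₄, h₄⟩ := hRG1 A₀ (1 / 100) hA₀ (by norm_num)
  obtain ⟨C₅, hC₅, h₅⟩ := hTFI 1 one_pos
  set c : ℝ := min (min c₁ c₂) (min c₃ (1 / 100)) with hc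
  have hcpos : 0 < c := lt_min (lt_min hc₁ hc₂) (lt_min hc₃ (by norm_num))
  have hcle1 : c ≤ c₁ := (min_le_left _ _).trans (min_le_left _ _)
  have hcle2 : c ≤ c₂ := (min_le_left _ _).trans (min_le_right _ _)
  have hcle3 : c ≤ c₃ := (min_le_right _ _).trans (min_le_left _ _)
  have hcle4 : c ≤ 1 / 100 := (min_le_right _ _).trans (min_le_right _ _)
  refine ⟨c, C₁ + C₂ + C₃ + C₄ + C₅ * 4, hcpos, by positivity, ?_⟩
  intro X hX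
  have hX0 : 0 < X := by linarith
  have hXc : 1 ≤ X ^ (2 / 3 - c) := Real.one_le_rpow hX (by linarith)
  rcases lt_or_ge X 2 with hX2 | hX2
  · obtain ⟨hf, hn⟩ := h₅ X hX
    have hsub : {x | Adm x ∧ (pd (pr x).primeFactors : ℝ) ≤ X ∧
        pd (pr x).primeFactors < ht x} ⊆
        {x | Adm x ∧ (pd (pr x).primeFactors : ℝ) ≤ X} := fun x hx => ⟨hx.1, hx.2.1⟩
    refine ⟨hf.subset hsub, ?_⟩
    have h6 : (({x | Adm x ∧ (pd (pr x).primeFactors : ℝ) ≤ X ∧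
        pd (pr x).primeFactors < ht x}.ncard : ℕ) : ℝ) ≤
        (({x | Adm x ∧ (pd (pr x).primeFactors : ℝ) ≤ X}.ncard : ℕ) : ℝ) :=
      Nat.cast_le.mpr (Set.ncard_le_ncard hsub hf)
    have h7 : X ^ (2 / 3 + 1 : ℝ) ≤ 4 := by
      calc X ^ (2 / 3 + 1 : ℝ) ≤ (2 : ℝ) ^ (2 / 3 + 1 : ℝ) :=
            Real.rpow_le_rpow hX0.le hX2.le (by norm_num)
        _ ≤ (2 : ℝ) ^ (2 : ℝ) := Real.rpow_le_rpow_of_exponent_le (by norm_num) (by norm_num)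
        _ = 4 := by norm_num
    calc _ ≤ C₅ * X ^ (2 / 3 + 1 : ℝ) := h6.trans hn
      _ ≤ C₅ * 4 := mul_le_mul_of_nonneg_left h7 hC₅.le
      _ ≤ (C₁ + C₂ + C₃ + C₄ + C₅ * 4) * 1 := by linarith
      _ ≤ _ := mul_le_mul_of_nonneg_left hXc (by positivity)
  · obtain ⟨f1, n1⟩ := h₁ X hX2
    obtain ⟨f2, n2⟩ := h₂ X hX2
    obtain ⟨f3, n3⟩ := h₃ X hX2
    obtain ⟨f4, n4⟩ := h₄ X hX
    replace n1 := exp_mono hX hC₁.le hcle1 n1
    replace n2 := exp_mono hX hC₂.le hcle2 n2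
    replace n3 := exp_mono hX hC₃.le hcle3 n3
    replace n4 := n4.trans (mul_le_mul_of_nonneg_left
      (Real.rpow_le_rpow_of_exponent_le hX (by linarith : (4 / 7 + 1 / 100 : ℝ) ≤ 2 / 3 - c))
      hC₄.le)
    set S1 := {x | x ∈ Rd X ρ₁ ∧ Real.log X ^ K₀ ≤ Real.log (ht x)} with hS1
    set S2 := {x | x ∈ Rd X ρ₂ ∧ A₀ * Real.log X ≤ Real.log (ht x) ∧
      Real.log (ht x) ≤ Real.log X ^ K₀} with hS2
    set S3 := {x | Adm x ∧ (pd (pr x).primeFactors : ℝ) ≤ X ∧ x ∉ Rd X (min ρ₁ ρ₂)} with hS3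
    set S4 := {x | Adm x ∧ (pd (pr x).primeFactors : ℝ) ≤ X ∧ pd (pr x).primeFactors < ht x ∧
      Real.log (ht x) ≤ A₀ * Real.log X} with hS4
    have hsub : {x | Adm x ∧ (pd (pr x).primeFactors : ℝ) ≤ X ∧
        pd (pr x).primeFactors < ht x} ⊆ (S1 ∪ S2) ∪ (S3 ∪ S4) := by
      intro x hx
      obtain ⟨g1, g2, g3⟩ := hx
      by_cases hr : x ∈ Rd X (min ρ₁ ρ₂)
      · rcases le_total (Real.log X ^ K₀) (Real.log (ht x)) with hl | hl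
        · exact Or.inl (Or.inl ⟨rd_mono hX (min_le_left _ _) hr, hl⟩)
        · rcases le_total (A₀ * Real.log X) (Real.log (ht x)) with hl2 | hl2
          · exact Or.inl (Or.inr ⟨rd_mono hX (min_le_right _ _) hr, hl2, hl⟩)
          · exact Or.inr (Or.inr ⟨g1, g2, g3, hl2⟩)
      · exact Or.inr (Or.inl ⟨g1, g2, hr⟩)
    have hfin : ((S1 ∪ S2) ∪ (S3 ∪ S4)).Finite := (f1.union f2).union (f3.union f4)
    refine ⟨hfin.subset hsub, ?_⟩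
    have e1 : ({x | Adm x ∧ (pd (pr x).primeFactors : ℝ) ≤ X ∧
        pd (pr x).primeFactors < ht x}.ncard : ℕ) ≤
        (S1.ncard + S2.ncard) + (S3.ncard + S4.ncard) :=
      (Set.ncard_le_ncard hsub hfin).trans ((Set.ncard_union_le _ _).trans
        (Nat.add_le_add (Set.ncard_union_le _ _) (Set.ncard_union_le _ _)))
    have e2 : (({x | Adm x ∧ (pd (pr x).primeFactors : ℝ) ≤ X ∧
        pd (pr x).primeFactors < ht x}.ncard : ℕ) : ℝ) ≤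
        ((S1.ncard : ℝ) + S2.ncard) + ((S3.ncard : ℝ) + S4.ncard) := by exact_mod_cast e1
    have e3 : 0 ≤ C₅ * 4 * X ^ (2 / 3 - c) := by positivity
    calc _ ≤ _ := e2
      _ ≤ (C₁ * X ^ (2 / 3 - c) + C₂ * X ^ (2 / 3 - c)) +
          (C₃ * X ^ (2 / 3 - c) + C₄ * X ^ (2 / 3 - c)) := by linarith
      _ ≤ _ := by linarith

end Pool.Agent.H59.AG
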