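import Pool.Agent.H82.TG.Targets
import Pool.Agent.H59.AG.GGG

/-!
# abc for 100 percent of all triples: the sharp threshold
-/

set_option autoImplicit false

open Pool.Agent.H38.RB Pool.Agent.H38.PS Pool.Agent.H82.RD Pool.Agent.H38.AB Pool.Agent.H38.AG
open Pool.Agent.H82.TG

namespace Pool.Agent.H59.AG

theorem pf_GPL (hRED : T_RED) (hRGS : T_RGS) (hRGB : T_RGB) (hRT : T_RT) (hTFI : T_TFI) :
    T_GPL := by
  intro ε hε
  obtain ⟨K₀, ρ₁, c₁, C₁, hK₀, hρ₁, hc₁, hC₁, h₁⟩ := hRGB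
  obtain ⟨A₀, ρ₂, c₂, C₂, hA₀, hρ₂, hc₂, hC₂, h₂⟩ := hRGS K₀ hK₀
  obtain ⟨ρ₄, c₄, C₄, hρ₄, hc₄, hC₄, h₄⟩ := hRT (ε / 2) A₀ (by linarith) hA₀
  set ρ : ℝ := min ρ₁ (min ρ₂ ρ₄) with hρ
  have hρpos : 0 < ρ := lt_min hρ₁ (lt_min hρ₂ hρ₄)
  have r1 : ρ ≤ ρ₁ := min_le_left _ _
  have r2 : ρ ≤ ρ₂ := (min_le_right _ _).trans (min_le_left _ _)
  have r4 : ρ ≤ ρ₄ := (min_le_right _ _).trans (min_le_right _ _)
  obtain ⟨c₃, C₃, hc₃, hC₃, h₃⟩ := hRED ρ hρpos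
  -- the triples of small radical
  set δ : ℝ := min (1 / 2) (ε / (2 * (1 / 3 + ε))) with hδ
  have hδpos : 0 < δ := lt_min (by norm_num) (by positivity)
  have hδle : δ ≤ 1 / 2 := min_le_left _ _
  have hδε : 1 / 3 + ε / 2 ≤ (1 - δ) * (1 / 3 + ε) := by
    have h1 : δ ≤ ε / (2 * (1 / 3 + ε)) := min_le_right _ _
    have h2 : δ * (1 / 3 + ε) ≤ ε / (2 * (1 / 3 + ε)) * (1 / 3 + ε) :=
      mul_le_mul_of_nonneg_right h1 (by linarith)
    have h3 : ε / (2 * (1 / 3 + ε)) * (1 / 3 + ε) = ε / 2 := by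
      have : (1 / 3 + ε) ≠ 0 := by positivity
      field_simp
    nlinarith
  obtain ⟨C₅, hC₅, h₅⟩ := hTFI 1 one_pos
  obtain ⟨C₆, hC₆, h₆⟩ := hTFI (δ / 3) (by linarith)
  set c : ℝ := min (min (min c₁ c₂) (min c₃ c₄)) (min (δ / 3) (1 / 100)) with hc
  have hcpos : 0 < c := lt_min (lt_min (lt_min hc₁ hc₂) (lt_min hc₃ hc₄))
    (lt_min (by linarith) (by norm_num))
  have k1 : c ≤ c₁ := (min_le_left _ _).trans ((min_le_left _ _).trans (min_le_left _ _))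
  have k2 : c ≤ c₂ := (min_le_left _ _).trans ((min_le_left _ _).trans (min_le_right _ _))
  have k3 : c ≤ c₃ := (min_le_left _ _).trans ((min_le_right _ _).trans (min_le_left _ _))
  have k4 : c ≤ c₄ := (min_le_left _ _).trans ((min_le_right _ _).trans (min_le_right _ _))
  have k5 : c ≤ δ / 3 := (min_le_right _ _).trans (min_le_left _ _)
  have k6 : c ≤ 1 / 100 := (min_le_right _ _).trans (min_le_right _ _)
  refine ⟨c, C₁ + C₂ + C₃ + C₄ + C₆ + C₅ * 4, hcpos, by positivity, ?_⟩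
  intro X hX
  have hX0 : 0 < X := by linarith
  have hXc : 1 ≤ X ^ (2 / 3 - c) := Real.one_le_rpow hX (by linarith)
  set V : Set (Fin 3 → ℤ) := {x | Adm x ∧ (pd (pr x).primeFactors : ℝ) ≤ X ∧
    (pd (pr x).primeFactors : ℝ) ^ (1 / 3 + ε) < (ht x : ℝ)} with hV
  rcases lt_or_ge X 2 with hX2 | hX2
  · obtain ⟨hf, hn⟩ := h₅ X hX
    have hsub : V ⊆ {x | Adm x ∧ (pd (pr x).primeFactors : ℝ) ≤ X} := fun x hx => ⟨hx.1, hx.2.1⟩
    refine ⟨hf.subset hsub, ?_⟩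
    have h6 : ((V.ncard : ℕ) : ℝ) ≤
        (({x | Adm x ∧ (pd (pr x).primeFactors : ℝ) ≤ X}.ncard : ℕ) : ℝ) :=
      Nat.cast_le.mpr (Set.ncard_le_ncard hsub hf)
    have h7 : X ^ (2 / 3 + 1 : ℝ) ≤ 4 := by
      calc X ^ (2 / 3 + 1 : ℝ) ≤ (2 : ℝ) ^ (2 / 3 + 1 : ℝ) :=
            Real.rpow_le_rpow hX0.le hX2.le (by norm_num)
        _ ≤ (2 : ℝ) ^ (2 : ℝ) := Real.rpow_le_rpow_of_exponent_le (by norm_num) (by norm_num)
        _ = 4 := by norm_num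
    calc _ ≤ C₅ * X ^ (2 / 3 + 1 : ℝ) := h6.trans hn
      _ ≤ C₅ * 4 := mul_le_mul_of_nonneg_left h7 hC₅.le
      _ ≤ (C₁ + C₂ + C₃ + C₄ + C₆ + C₅ * 4) * 1 := by linarith
      _ ≤ _ := mul_le_mul_of_nonneg_left hXc (by positivity)
  · obtain ⟨f1, n1⟩ := h₁ X hX2
    obtain ⟨f2, n2⟩ := h₂ X hX2
    obtain ⟨f3, n3⟩ := h₃ X hX2
    obtain ⟨f4, n4⟩ := h₄ X hX2
    have hXd : 1 ≤ X ^ (1 - δ) := Real.one_le_rpow hX (by linarith)
    obtain ⟨f6, n6⟩ := h₆ (X ^ (1 - δ)) hXd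
    replace n1 := exp_mono hX hC₁.le k1 n1
    replace n2 := exp_mono hX hC₂.le k2 n2
    replace n3 := exp_mono hX hC₃.le k3 n3
    replace n4 := exp_mono hX hC₄.le k4 n4
    have n6' : (({x | Adm x ∧ (pd (pr x).primeFactors : ℝ) ≤ X ^ (1 - δ)}.ncard : ℕ) : ℝ) ≤
        C₆ * X ^ (2 / 3 - c) := by
      refine n6.trans (mul_le_mul_of_nonneg_left ?_ hC₆.le)
      rw [← Real.rpow_mul hX0.le]
      apply Real.rpow_le_rpow_of_exponent_le hX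
      nlinarith
    set S1 := {x | x ∈ Rd X ρ₁ ∧ Real.log X ^ K₀ ≤ Real.log (ht x)} with hS1
    set S2 := {x | x ∈ Rd X ρ₂ ∧ A₀ * Real.log X ≤ Real.log (ht x) ∧
      Real.log (ht x) ≤ Real.log X ^ K₀} with hS2
    set S3 := {x | Adm x ∧ (pd (pr x).primeFactors : ℝ) ≤ X ∧ x ∉ Rd X ρ} with hS3
    set S4 := {x | Adm x ∧ (pd (pr x).primeFactors : ℝ) ≤ X ∧
      (∀ i, X ^ (1 / 3 - ρ₄) ≤ (pd (x i).natAbs.primeFactors : ℝ)) ∧
      X ^ (1 / 3 + ε / 2) ≤ (ht x : ℝ) ∧ Real.log (ht x) ≤ A₀ * Real.log X} with hS4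
    set S6 := {x | Adm x ∧ (pd (pr x).primeFactors : ℝ) ≤ X ^ (1 - δ)} with hS6
    have hsub : V ⊆ ((S1 ∪ S2) ∪ (S3 ∪ S4)) ∪ S6 := by
      intro x hx
      obtain ⟨g1, g2, g3⟩ := hx
      rcases le_total (pd (pr x).primeFactors : ℝ) (X ^ (1 - δ)) with hs | hs
      · exact Or.inr ⟨g1, hs⟩
      refine Or.inl ?_
      by_cases hr : x ∈ Rd X ρ
      · rcases le_total (Real.log X ^ K₀) (Real.log (ht x)) with hl | hl
        · exact Or.inl (Or.inl ⟨rd_mono hX r1 hr, hl⟩)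
        · rcases le_total (A₀ * Real.log X) (Real.log (ht x)) with hl2 | hl2
          · exact Or.inl (Or.inr ⟨rd_mono hX r2 hr, hl2, hl⟩)
          · refine Or.inr (Or.inr ⟨g1, g2, (rd_mono hX r4 hr).2.2.1, ?_, hl2⟩)
            calc X ^ (1 / 3 + ε / 2) ≤ X ^ ((1 - δ) * (1 / 3 + ε)) :=
                  Real.rpow_le_rpow_of_exponent_le hX hδε
              _ = (X ^ (1 - δ)) ^ (1 / 3 + ε) := Real.rpow_mul hX0.le _ _
              _ ≤ (pd (pr x).primeFactors : ℝ) ^ (1 / 3 + ε) :=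
                  Real.rpow_le_rpow (by positivity) hs (by linarith)
              _ ≤ (ht x : ℝ) := g3.le
      · exact Or.inr (Or.inl ⟨g1, g2, hr⟩)
    have hfin : (((S1 ∪ S2) ∪ (S3 ∪ S4)) ∪ S6).Finite :=
      ((f1.union f2).union (f3.union f4)).union f6
    refine ⟨hfin.subset hsub, ?_⟩
    have e1 : (V.ncard : ℕ) ≤
        ((S1.ncard + S2.ncard) + (S3.ncard + S4.ncard)) + S6.ncard :=
      (Set.ncard_le_ncard hsub hfin).trans ((Set.ncard_union_le _ _).trans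
        (Nat.add_le_add ((Set.ncard_union_le _ _).trans
        (Nat.add_le_add (Set.ncard_union_le _ _) (Set.ncard_union_le _ _))) le_rfl))
    have e2 : ((V.ncard : ℕ) : ℝ) ≤
        (((S1.ncard : ℝ) + S2.ncard) + ((S3.ncard : ℝ) + S4.ncard)) + S6.ncard := by
      exact_mod_cast e1
    have e3 : 0 ≤ C₅ * 4 * X ^ (2 / 3 - c) := by positivity
    calc _ ≤ _ := e2
      _ ≤ ((C₁ * X ^ (2 / 3 - c) + C₂ * X ^ (2 / 3 - c)) +
          (C₃ * X ^ (2 / 3 - c) + C₄ * X ^ (2 / 3 - c))) + C₆ * X ^ (2 / 3 - c) := by linarith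
      _ ≤ _ := by linarith

end Pool.Agent.H59.AG
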