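import Pool.Agent.H38.AG.Targets

/-!
# Board `allg_modules`, module RGB: the reduced triples of large height
-/

set_option autoImplicit false

open Pool.Agent.H38.RB Pool.Agent.H38.PS Pool.Agent.H82.RD Pool.Agent.H38.AB Pool.Agent.H38.AG

namespace Pool.Agent.H59.AG

theorem rgb_rd {X ρ ρ' : ℝ} (hX : 1 ≤ X) (h : ρ ≤ ρ') : Rd X ρ ⊆ Rd X ρ' := by
  intro x hx
  obtain ⟨h1, h2, h3, h4, h5⟩ := hx
  refine ⟨h1, h2, fun i => ?_, ?_, ?_⟩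
  · exact (Real.rpow_le_rpow_of_exponent_le hX (by linarith)).trans (h3 i)
  · exact h4.trans (Real.rpow_le_rpow_of_exponent_le hX h)
  · exact h5.trans (mul_le_mul_of_nonneg_right h (Real.log_nonneg hX))

theorem rgb_exp {X C c c' y : ℝ} (hX : 1 ≤ X) (hC : 0 ≤ C) (h : c' ≤ c)
    (hy : y ≤ C * X ^ (2 / 3 - c)) : y ≤ C * X ^ (2 / 3 - c') :=
  hy.trans (mul_le_mul_of_nonneg_left
    (Real.rpow_le_rpow_of_exponent_le hX (by linarith)) hC)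

/-- the triples of class 2 -/
theorem rgb_k2 (hLGT4 : T_LGT4) (κ c : ℝ) (hκ : κ < 1) (hc : 0 < c) :
    ∃ c' C : ℝ, 0 < c' ∧ 0 < C ∧ ∀ X : ℝ, 2 ≤ X → {x | K2 X c κ x}.Finite ∧
      ({x | K2 X c κ x}.ncard : ℝ) ≤ C * X ^ (2 / 3 - c') := by
  set c₂ : ℝ := min c (2 / 3) with hc₂
  have hc₂pos : 0 < c₂ := lt_min hc (by norm_num)
  have hc₂le : c₂ ≤ 2 / 3 := min_le_right _ _
  obtain ⟨C, hC, h⟩ := hLGT4 (1 - κ) (c₂ / 2) (by linarith) (by linarith)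
  refine ⟨c₂ / 2, C, by linarith, hC, ?_⟩
  intro X hX
  have hX1 : 1 ≤ X := by linarith
  have hX0 : 0 < X := by linarith
  have hY : 1 ≤ X ^ (2 / 3 - c₂) := Real.one_le_rpow hX1 (by linarith)
  obtain ⟨hf, hn⟩ := h 1 (X ^ (2 / 3 - c₂)) le_rfl hY
  have hsub : {x | K2 X c κ x} ⊆ {x | ∃ S : Finset ℕ, (∀ p ∈ S, p.Prime) ∧
      (1 : ℕ).primeFactors ⊆ S ∧ (pd (S \ (1 : ℕ).primeFactors) : ℝ) ≤ X ^ (2 / 3 - c₂) ∧
      x ∈ Sol (1 - (1 - κ)) S} := by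
    rintro x ⟨T, h1, h2, h3⟩
    refine ⟨T, h1, by rw [Nat.primeFactors_one]; exact Finset.empty_subset _, ?_, ?_⟩
    · rw [Nat.primeFactors_one, Finset.sdiff_empty]
      exact h2.trans (Real.rpow_le_rpow_of_exponent_le hX1 (by
        have : c₂ ≤ c := min_le_left _ _
        linarith))
    · rw [sub_sub_cancel]
      exact h3
  refine ⟨hf.subset hsub, ?_⟩
  have h4 : (({x | K2 X c κ x}.ncard : ℕ) : ℝ) ≤ C * (X ^ (2 / 3 - c₂)) ^ (1 + c₂ / 2) *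
      ((1 : ℕ) : ℝ) ^ (c₂ / 2) :=
    (Nat.cast_le.mpr (Set.ncard_le_ncard hsub hf)).trans hn
  refine h4.trans ?_
  rw [Nat.cast_one, Real.one_rpow, mul_one, ← Real.rpow_mul hX0.le]
  refine mul_le_mul_of_nonneg_left (Real.rpow_le_rpow_of_exponent_le hX1 ?_) hC.le
  nlinarith

theorem pf_RGB (hK1C : T_K1C) (hK3C : T_K3C) (hK4C : T_K4C) (hSLB : T_SLB) (hLGT4 : T_LGT4)
    (hTFI : T_TFI) : T_RGB := by
  obtain ⟨c₃, Ka, ρa, hc₃, hc₃le, hKa, hρa, hk1⟩ := hK1C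
  obtain ⟨κ, c, h, hκ, hc, hslb⟩ := hSLB c₃ hc₃ hc₃le
  obtain ⟨c1, C1, hc1, hC1, h1⟩ := hk1 κ hκ
  obtain ⟨K₃, ρc, c3, C3, hK₃, hρc, hc3, hC3, h3⟩ := hK3C h κ c hκ hc
  obtain ⟨K₄, ρd, c4, C4, hK₄, hρd, hc4, hC4, h4⟩ := hK4C h κ c (K₃ + 3) hκ hc (by linarith)
  obtain ⟨Kb, ρb, X₀, hKb, hρb, hX₀, hs⟩ := hslb K₃ K₄ hK₃ hK₄
  obtain ⟨c2, C2, hc2, hC2, h2⟩ := rgb_k2 hLGT4 κ c hκ hc
  obtain ⟨C5, hC5, h5⟩ := hTFI 1 one_pos
  set ρ : ℝ := min (min ρa ρb) (min ρc ρd) with hρ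
  have hρpos : 0 < ρ := lt_min (lt_min hρa hρb) (lt_min hρc hρd)
  have ha : ρ ≤ ρa := (min_le_left _ _).trans (min_le_left _ _)
  have hb : ρ ≤ ρb := (min_le_left _ _).trans (min_le_right _ _)
  have hc' : ρ ≤ ρc := (min_le_right _ _).trans (min_le_left _ _)
  have hd : ρ ≤ ρd := (min_le_right _ _).trans (min_le_right _ _)
  set e : ℝ := min (min (min c1 c2) (min c3 c4)) (1 / 100) with he
  have hepos : 0 < e := lt_min (lt_min (lt_min hc1 hc2) (lt_min hc3 hc4)) (by norm_num)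
  have e1 : e ≤ c1 := (min_le_left _ _).trans ((min_le_left _ _).trans (min_le_left _ _))
  have e2 : e ≤ c2 := (min_le_left _ _).trans ((min_le_left _ _).trans (min_le_right _ _))
  have e3 : e ≤ c3 := (min_le_left _ _).trans ((min_le_right _ _).trans (min_le_left _ _))
  have e4 : e ≤ c4 := (min_le_left _ _).trans ((min_le_right _ _).trans (min_le_right _ _))
  have e5 : e ≤ 1 / 100 := min_le_right _ _
  set Y : ℝ := max X₀ 3 with hY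
  have hY3 : 3 ≤ Y := le_max_right _ _
  have hYX : X₀ ≤ Y := le_max_left _ _
  refine ⟨max Ka Kb, ρ, e, C1 + C2 + C3 + C4 + C5 * Y ^ (2 / 3 + 1 : ℝ),
    hKa.trans (le_max_left _ _), hρpos, hepos, by positivity, ?_⟩
  intro X hX
  have hX1 : 1 ≤ X := by linarith
  have hX0 : 0 < X := by linarith
  have hXc : 1 ≤ X ^ (2 / 3 - e) := Real.one_le_rpow hX1 (by linarith)
  have hY0 : 0 < Y ^ (2 / 3 + 1 : ℝ) := by positivity
  rcases lt_or_ge X Y with hXY | hXY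
  · obtain ⟨hf, hn⟩ := h5 X hX1
    have hsub : {x | x ∈ Rd X ρ ∧ Real.log X ^ (max Ka Kb) ≤ Real.log (ht x)} ⊆
        {x | Adm x ∧ (pd (pr x).primeFactors : ℝ) ≤ X} := fun x hx => ⟨hx.1.1, hx.1.2.1⟩
    refine ⟨hf.subset hsub, ?_⟩
    have h6 : (({x | x ∈ Rd X ρ ∧ Real.log X ^ (max Ka Kb) ≤ Real.log (ht x)}.ncard : ℕ) : ℝ) ≤
        (({x | Adm x ∧ (pd (pr x).primeFactors : ℝ) ≤ X}.ncard : ℕ) : ℝ) :=
      Nat.cast_le.mpr (Set.ncard_le_ncard hsub hf)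
    have h7 : X ^ (2 / 3 + 1 : ℝ) ≤ Y ^ (2 / 3 + 1 : ℝ) :=
      Real.rpow_le_rpow hX0.le hXY.le (by norm_num)
    calc _ ≤ C5 * X ^ (2 / 3 + 1 : ℝ) := h6.trans hn
      _ ≤ C5 * Y ^ (2 / 3 + 1 : ℝ) := mul_le_mul_of_nonneg_left h7 hC5.le
      _ ≤ (C1 + C2 + C3 + C4 + C5 * Y ^ (2 / 3 + 1 : ℝ)) * 1 := by linarith
      _ ≤ _ := mul_le_mul_of_nonneg_left hXc (by positivity)
  · obtain ⟨f1, n1⟩ := h1 X hX
    obtain ⟨f2, n2⟩ := h2 X hX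
    obtain ⟨f3, n3⟩ := h3 X hX
    obtain ⟨f4, n4⟩ := h4 X hX
    replace n1 := rgb_exp hX1 hC1.le e1 n1
    replace n2 := rgb_exp hX1 hC2.le e2 n2
    replace n3 := rgb_exp hX1 hC3.le e3 n3
    replace n4 := rgb_exp hX1 hC4.le e4 n4
    set S1 := {x | x ∈ Rd X ρa ∧ Real.log X ^ Ka ≤ Real.log (ht x) ∧ K1 X c₃ κ x} with hS1
    set S2 := {x | K2 X c κ x} with hS2
    set S3 := {x | x ∈ Rd X ρc ∧ K3 X h κ c K₃ x} with hS3
    set S4 := {x | x ∈ Rd X ρd ∧ K4 X h κ c (K₃ + 3) K₄ x} with hS4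
    have hlog : 1 ≤ Real.log X := by
      rw [Real.le_log_iff_exp_le hX0]
      have := Real.exp_one_lt_d9
      linarith
    have hsub : {x | x ∈ Rd X ρ ∧ Real.log X ^ (max Ka Kb) ≤ Real.log (ht x)} ⊆
        (S1 ∪ S2) ∪ (S3 ∪ S4) := by
      intro x hx
      obtain ⟨g1, g2⟩ := hx
      have ga : Real.log X ^ Ka ≤ Real.log (ht x) :=
        (Real.rpow_le_rpow_of_exponent_le hlog (le_max_left _ _)).trans g2
      have gb : Real.log X ^ Kb ≤ Real.log (ht x) :=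
        (Real.rpow_le_rpow_of_exponent_le hlog (le_max_right _ _)).trans g2
      rcases hs X x (hYX.trans hXY) (rgb_rd hX1 hb g1) gb with h | h | h | h
      · exact Or.inl (Or.inl ⟨rgb_rd hX1 ha g1, ga, h⟩)
      · exact Or.inl (Or.inr h)
      · exact Or.inr (Or.inl ⟨rgb_rd hX1 hc' g1, h⟩)
      · exact Or.inr (Or.inr ⟨rgb_rd hX1 hd g1, h⟩)
    have hfin : ((S1 ∪ S2) ∪ (S3 ∪ S4)).Finite := (f1.union f2).union (f3.union f4)
    refine ⟨hfin.subset hsub, ?_⟩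
    have e6 : ({x | x ∈ Rd X ρ ∧ Real.log X ^ (max Ka Kb) ≤ Real.log (ht x)}.ncard : ℕ) ≤
        (S1.ncard + S2.ncard) + (S3.ncard + S4.ncard) :=
      (Set.ncard_le_ncard hsub hfin).trans ((Set.ncard_union_le _ _).trans
        (Nat.add_le_add (Set.ncard_union_le _ _) (Set.ncard_union_le _ _)))
    have e7 : (({x | x ∈ Rd X ρ ∧ Real.log X ^ (max Ka Kb) ≤ Real.log (ht x)}.ncard : ℕ) : ℝ) ≤
        ((S1.ncard : ℝ) + S2.ncard) + ((S3.ncard : ℝ) + S4.ncard) := by exact_mod_cast e6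
    have e8 : 0 ≤ C5 * Y ^ (2 / 3 + 1 : ℝ) * X ^ (2 / 3 - e) := by positivity
    calc _ ≤ _ := e7
      _ ≤ (C1 * X ^ (2 / 3 - e) + C2 * X ^ (2 / 3 - e)) +
          (C3 * X ^ (2 / 3 - e) + C4 * X ^ (2 / 3 - e)) := by linarith
      _ ≤ _ := by linarith

end Pool.Agent.H59.AG
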